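import Pool.Agent.Helper61.LN.Goals

/-!
# PROJECT LN (MP_c65973_gt), packet LN-SLIDE: a 1-1-tangle slides along a knot
-/

set_option autoImplicit false

namespace Pool.Agent.Helper57.LN.SLIDE

open Pool.Agent.Helper31.Sk Pool.Agent.Helper35.Skl Pool.Agent.Helper61.LN

theorem key {n n' : ℕ} {C u v A B : Word} (hu : Legal 0 u n) (hv : Legal n' v 0)
    (h : Iso n n' A B) : Iso 0 0 C (u ++ A ++ v) ↔ Iso 0 0 C (u ++ B ++ v) :=
  ⟨fun hC => iso_trans hC (iso_ctx h hu hv), fun hC => iso_trans hC (iso_symm (iso_ctx h hu hv))⟩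

theorem t (h1 : S_ICR) (h2 : S_ICL) (h3 : S_SLX) (h4 : S_PAT) : S_SLIDE := by
  intro T hT u v l i hK hu hi
  obtain ⟨w, hw⟩ : ∃ w, w = u ++ v := ⟨_, rfl⟩
  rw [← hw] at hK ⊢
  have hT1 := hT.legal
  have hne : w ≠ [] := by
    rintro rfl
    have : u = [] := by
      have := hw.symm
      simp only [List.append_eq_nil_iff] at this
      exact this.1
    subst this
    simp only [Legal] at hu
    omega
  obtain ⟨w', hw', hLw'⟩ := first_piece hK.1 hne
  set Q : ℕ → ℕ → Prop := fun k i => Iso 0 0 (con T w) (w.take k ++ shift i T ++ w.drop k) with hQ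
  have hcomp : ∀ (u v : Word) (i n : ℕ) (g : Gen), w = u ++ (i, g) :: v → Legal 0 u n →
      CompatP n i g (Q u.length) (Q (u.length + 1)) := by
    intro u v i n g hw hu
    obtain ⟨k, hk1, hk2⟩ := legal_append.1 (hw ▸ hK.1)
    have hkn := legal_unique hk1 hu
    subst hkn
    obtain ⟨hin, hv⟩ := hk2
    have qa : ∀ j, Q u.length j ↔
        Iso 0 0 (con T w) (u ++ (shift j T ++ [(i, g)]) ++ v) := by
      intro j
      have e1 : w.take u.length = u := by rw [hw]; simp
      have e2 : w.drop u.length = (i, g) :: v := by rw [hw]; simp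
      simp only [hQ, e1, e2]
      simp
    have qb : ∀ j, Q (u.length + 1) j ↔
        Iso 0 0 (con T w) (u ++ ((i, g) :: shift j T) ++ v) := by
      intro j
      have e0 : w = (u ++ [(i, g)]) ++ v := by rw [hw]; simp
      have el : u.length + 1 = (u ++ [(i, g)]).length := by simp
      have e1 : w.take (u.length + 1) = u ++ [(i, g)] := by
        rw [el, e0]; exact List.take_left' rfl
      have e2 : w.drop (u.length + 1) = v := by
        rw [el, e0]; exact List.drop_left' rfl
      simp only [hQ, e1, e2]
      simp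
    refine ⟨?_, ?_, ?_, ?_, ?_⟩
    · intro j hj
      rw [qa, qb]
      obtain ⟨q, rfl⟩ : ∃ q, i = 1 + q + j := ⟨i - 1 - j, by omega⟩
      obtain ⟨r, rfl⟩ : ∃ r, k = 1 + q + j + g.src + r := ⟨k - (1 + q + j + g.src), by omega⟩
      refine key hu hv ?_
      have h := iso_sh j 0 (h1 1 1 T hT1 q r g)
      rw [sh_append, sh_cons, sh_cons, sh_nil] at h
      convert h using 1
      · ring
      · omega
    · intro j hj1 hj2
      rw [qa, qb]
      obtain ⟨q, rfl⟩ : ∃ q, j = i + g.src + q := ⟨j - i - g.src, by omega⟩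
      obtain ⟨r, rfl⟩ : ∃ r, k = i + g.src + q + 1 + r := ⟨k - (i + g.src + q + 1), by omega⟩
      refine key hu hv ?_
      have h := h2 1 1 T hT1 i q r g
      have e : i + g.src + q - g.src + g.tgt = i + g.tgt + q := by omega
      rw [e]
      convert h using 1
      omega
    · intro hg
      subst hg
      rw [qb, qb]
      simp only [Gen.src, Gen.tgt] at hin hv
      obtain ⟨r, rfl⟩ : ∃ r, k = i + r := ⟨k - i, by omega⟩
      refine key (n' := i + r - 0 + 2) hu hv ?_
      have h := iso_sh i r hT.cup
      rw [sh_cons, sh_cons, sh_sh] at h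
      convert h using 1
      · ring
      · omega
      · simp
      · simp [add_comm]
    · intro hg
      subst hg
      rw [qa, qa]
      simp only [Gen.src, Gen.tgt] at hin hv
      obtain ⟨r, rfl⟩ : ∃ r, k = i + 2 + r := ⟨k - (i + 2), by omega⟩
      refine key (n' := i + 2 + r - 2 + 0) hu hv ?_
      have h := iso_sh i r hT.cap
      rw [sh_append, sh_append, sh_cons, sh_nil, sh_sh] at h
      convert h using 1
      · ring
      · omega
      · simp
      · simp [add_comm]
    · intro hg
      have hsrc : g.src = 2 ∧ g.tgt = 2 := by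
        rcases hg with rfl | rfl <;> exact ⟨rfl, rfl⟩
      obtain ⟨ha, hb⟩ := h3 T hT1 g hg
      rw [hsrc.1, hsrc.2] at hv
      rw [hsrc.1] at hin
      obtain ⟨r, rfl⟩ : ∃ r, k = i + 2 + r := ⟨k - (i + 2), by omega⟩
      rw [qa, qa, qb, qb]
      constructor
      · refine key hu hv ?_
        have h := iso_sh i r ha
        rw [sh_append, sh_cons, sh_cons, sh_nil, sh_sh] at h
        convert h using 1
        · ring
        · omega
        · simp
        · simp [add_comm]
      · refine key hu hv ?_
        have h := iso_sh i r hb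
        rw [sh_append, sh_cons, sh_cons, sh_nil, sh_sh] at h
        convert h using 1
        · ring
        · omega
        · simp [add_comm]
        · simp
  have hfin := h4 w Q hK hcomp u v [(0, .cup)] w' l 2 i 0 hw (by rw [hw']; rfl) hu
    ⟨by simp [Gen.src], by simp [Legal, Gen.src, Gen.tgt]⟩ hi (by norm_num)
  have h0 : Q ([(0, Gen.cup)] : Word).length 0 := by
    simp only [hQ, List.length_singleton]
    rw [hw', sh_zero]
    exact iso_refl _ _ _
  have hq := hfin.2 h0
  simp only [hQ] at hq
  have e1 : w.take u.length = u := by rw [hw]; simp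
  have e2 : w.drop u.length = v := by rw [hw]; simp
  rw [e1, e2] at hq
  exact hq

end Pool.Agent.Helper57.LN.SLIDE
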